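import Pool.Agent.N795.BV.Full

/-!
# Borcea's `p`-variance inequality: all `p ≥ 1` near `a (z - c)^n - b`, and all large `p`

(A) For every degree `n ≥ 2` there is `ε > 0` such that `h(F, F') ≤ σ_p(F)` for ALL `p ≥ 1` and all
`F` of degree `n` whose critical points `w` satisfy `|w - μ|^n ≤ ε |F(μ)| / |a|`, `μ` the centroid and
`a` the leading coefficient of `F`; equality holds only for `F = a (z - c)^n - b`.
(B) For every degree `n ≥ 2` there is `p₀` such that `h(F, F') ≤ σ_p(F)` for all `p ≥ p₀` and all `F`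
of degree `n`.
-/

set_option autoImplicit false

open Polynomial

namespace Pool.Agent.Results.MP_af3a4a_an.NearTheExtremalPolynomials

/-- `h(F, F')`: the largest distance from a zero of `F` to the nearest critical point. -/
noncomputable def h (F : ℂ[X]) : ℝ :=
  sSup {d : ℝ | ∃ z ∈ F.roots, d = sInf {r : ℝ | ∃ w ∈ (derivative F).roots, r = ‖z - w‖}}

/-- The `p`-variance `σ_p(F)` of the zeros of `F`, listed with multiplicity. -/
noncomputable def sigma (p : ℝ) (F : ℂ[X]) : ℝ :=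
  ⨅ c : ℂ, ((1 / (F.natDegree : ℝ)) * (F.roots.map (fun z => ‖z - c‖ ^ p)).sum) ^ (1 / p)

/-- The centroid of the zeros of `F`, listed with multiplicity. -/
noncomputable def centroid (F : ℂ[X]) : ℂ := F.roots.sum / (F.natDegree : ℂ)

/-- **Theorem.** Let `n ≥ 2`. (A) There is `ε > 0` such that for all polynomials `F` of degree `n`
with leading coefficient `a` and centroid `μ` for which every critical point `w` satisfies
`|w - μ|^n |a| ≤ ε |F(μ)|`, and all `p ≥ 1`: `h(F, F') ≤ σ_p(F)`, with equality if and only if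
`F = a' (z - c)^n - b`, `a' ≠ 0`. (B) There is `p₀` such that for all `p ≥ p₀` and all polynomials `F`
of degree `n`: `h(F, F') ≤ σ_p(F)`. -/
theorem result (n : ℕ) (hn : 2 ≤ n) :
    (∃ ε : ℝ, 0 < ε ∧ ∀ F : ℂ[X], F.natDegree = n →
      (∀ w ∈ (derivative F).roots,
        ‖w - centroid F‖ ^ n * ‖F.leadingCoeff‖ ≤ ε * ‖F.eval (centroid F)‖) →
      ∀ p : ℝ, 1 ≤ p → h F ≤ sigma p F ∧
        (h F = sigma p F ↔ ∃ a b c : ℂ, a ≠ 0 ∧ F = C a * (X - C c) ^ n - C b)) ∧
    ∃ p₀ : ℝ, ∀ p : ℝ, p₀ ≤ p → ∀ F : ℂ[X], F.natDegree = n → h F ≤ sigma p F := by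
  constructor
  · obtain ⟨ε, hε, H⟩ := Pool.Agent.N795.BV.full_local n hn
    refine ⟨ε, hε, fun F hF hw p hp => ?_⟩
    have hw' : ∀ w ∈ (derivative F).roots,
        ‖w - F.roots.sum / (n : ℂ)‖ ^ n * ‖F.leadingCoeff‖ ≤
          ε * ‖F.eval (F.roots.sum / (n : ℂ))‖ := by
      intro w h
      have := hw w h
      unfold centroid at this
      rw [hF] at this
      exact this
    obtain ⟨h1, h2⟩ := H F hF hw' p hp
    refine ⟨h1, ?_⟩
    have h3 : Pool.Agent.V1148.Bor.IsPure F ↔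
        ∃ a b c : ℂ, a ≠ 0 ∧ F = C a * (X - C c) ^ n - C b := by
      unfold Pool.Agent.V1148.Bor.IsPure
      rw [hF]
    exact h2.trans h3
  · obtain ⟨p₀, -, H⟩ := Pool.Agent.N795.BV.full_large n hn
    exact ⟨p₀, fun p hp F hF => (H F hF p hp).1⟩

end Pool.Agent.Results.MP_af3a4a_an.NearTheExtremalPolynomials
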